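import Pool.Agent.V5helper99.DC.Defs

/-! Project DC, job J14 -/

set_option autoImplicit false

namespace DC99

open Module

theorem J14_even {n : ℕ} (A B : Finset (Fin n)) :
    Even (symmDiff A B).card ↔ (Even A.card ↔ Even B.card) := by
  have h1 : (symmDiff A B).card = (A \ B).card + (B \ A).card := by
    rw [symmDiff_def]
    refine Finset.card_union_of_disjoint ?_
    rw [Finset.disjoint_left]
    intro x hx hx'
    rw [Finset.mem_sdiff] at hx hx'
    exact hx.2 hx'.1
  have h2 := Finset.card_sdiff_add_card_inter A B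
  have h3 := Finset.card_sdiff_add_card_inter B A
  rw [Finset.inter_comm B A] at h3
  rw [h1, ← h2, ← h3]
  simp only [Nat.even_iff]
  omega

theorem J14_pair {n : ℕ} (V A : Finset (Fin n)) (j j' a b : Fin n) (hab : a ≠ b)
    (h0 : A = symmDiff V {j}) (h1 : symmDiff A {a, b} = symmDiff V {j'}) : j = a ∨ j = b := by
  rw [h0, symmDiff_assoc] at h1
  have h2 : symmDiff {j} {a, b} = ({j'} : Finset (Fin n)) := symmDiff_right_injective V h1
  by_contra hcon
  push Not at hcon
  have h3 : a ∈ ({j'} : Finset (Fin n)) := by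
    rw [← h2, Finset.mem_symmDiff]
    right
    exact ⟨by simp, by simpa using Ne.symm hcon.1⟩
  have h4 : b ∈ ({j'} : Finset (Fin n)) := by
    rw [← h2, Finset.mem_symmDiff]
    right
    exact ⟨by simp, by simpa using Ne.symm hcon.2⟩
  rw [Finset.mem_singleton] at h3 h4
  exact hab (h3.trans h4.symm)

theorem J14_mem {n : ℕ} (W S A : Finset (Fin n)) (a b : Fin n) (hab : a ≠ b) (ha : a ∈ S) (hb : b ∈ S)
    (hA : A ∈ ST W S) : symmDiff A {a, b} ∈ ST W S := by
  refine ⟨?_, ?_⟩
  · rw [J14_even]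
    have h1 : ({a, b} : Finset (Fin n)).card = 2 := Finset.card_pair hab
    rw [h1]
    exact ⟨fun _ => even_two, fun _ => hA.1⟩
  · have h1 : symmDiff (symmDiff A {a, b}) W = symmDiff (symmDiff A W) {a, b} := by
      rw [symmDiff_assoc, symmDiff_comm {a, b} W, ← symmDiff_assoc]
    rw [h1]
    intro x hx
    rw [Finset.mem_symmDiff] at hx
    rcases hx with hx | hx
    · exact hA.2 hx.1
    · have h2 := hx.1
      rw [Finset.mem_insert, Finset.mem_singleton] at h2
      rcases h2 with rfl | rfl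
      · exact ha
      · exact hb

theorem t_J14 {n : ℕ} (V J W S : Finset (Fin n)) (hS : 3 ≤ S.card) : ¬ ST W S ⊆ JT V J := by
  intro h
  obtain ⟨a, ha, b, hb, c, hc, hab, hac, hbc⟩ := Finset.two_lt_card.1 hS
  obtain ⟨A, hA⟩ : ∃ A, A ∈ ST W S := by
    rcases Nat.even_or_odd W.card with hW | hW
    · exact ⟨W, hW, by simp⟩
    · refine ⟨symmDiff W {a}, ?_, ?_⟩
      · rw [J14_even]
        have h1 : ¬ Even W.card := Nat.not_even_iff_odd.2 hW
        simp [h1]
      · have h1 : symmDiff (symmDiff W {a}) W = {a} := by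
          rw [symmDiff_comm W {a}, symmDiff_symmDiff_cancel_right]
        rw [h1]
        intro x hx
        rw [Finset.mem_singleton] at hx
        rw [hx]
        exact ha
  obtain ⟨j, -, h0⟩ := h hA
  obtain ⟨j1, -, h1⟩ := h (J14_mem W S A a b hab ha hb hA)
  obtain ⟨j2, -, h2⟩ := h (J14_mem W S A a c hac ha hc hA)
  obtain ⟨j3, -, h3⟩ := h (J14_mem W S A b c hbc hb hc hA)
  have e1 := J14_pair V A j j1 a b hab h0 h1
  have e2 := J14_pair V A j j2 a c hac h0 h2
  have e3 := J14_pair V A j j3 b c hbc h0 h3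
  rcases e1 with rfl | rfl
  · rcases e3 with rfl | rfl
    · exact hab rfl
    · exact hac rfl
  · rcases e2 with rfl | rfl
    · exact hab rfl
    · exact hbc rfl

end DC99
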